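import Pool.Agent.TBP.StmtsA

set_option autoImplicit false

namespace Pool.Agent.Helper6_TBP

open Pool.Agent.TBP

/-- Power form: for every `B > e log 2` there is `C` with `τ(n - k) ≤ C k ^ B` for all `1 ≤ k < n`,
for infinitely many `n`. -/
theorem power_form (hfin : FinStmt) : ∀ B : ℝ, Real.exp 1 * Real.log 2 < B → ∃ C : ℝ, 0 < C ∧
    {n : ℕ | ∀ k : ℕ, 1 ≤ k → k < n → ((n - k).divisors.card : ℝ) ≤ C * (k : ℝ) ^ B}.Infinite := by
  intro B hB
  obtain ⟨C, hC, h⟩ := hfin B hB (-1) (Or.inr rfl)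
  refine ⟨C, hC, ?_⟩
  refine Set.infinite_of_not_bddAbove ?_
  rintro ⟨b, hb⟩
  obtain ⟨n, hn, hk⟩ := h (b + 1)
  have hmem : n ∈ {n : ℕ | ∀ k : ℕ, 1 ≤ k → k < n →
      ((n - k).divisors.card : ℝ) ≤ C * (k : ℝ) ^ B} := by
    intro k hk1 hkn
    have h2 := hk k hk1
    have h3 : (((n : ℕ) : ℤ) + (-1) * (k : ℤ)).natAbs = n - k := by omega
    rwa [h3] at h2
  have := hb hmem
  omega

/-- With the constant `2` of Q1: there is `β > 0` such that infinitely many `n` satisfy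
`m + τ(m) ^ β ≤ n + 2` for all `1 ≤ m < n`. -/
theorem constant_two (hfin : FinStmt) : ∃ β : ℝ, 0 < β ∧
    {n : ℕ | ∀ m : ℕ, 1 ≤ m → m < n → (m : ℝ) + (m.divisors.card : ℝ) ^ β ≤ n + 2}.Infinite := by
  have hB : Real.exp 1 * Real.log 2 < 2 := by
    have h1 := Real.exp_one_lt_d9
    have h2 := Real.log_two_lt_d9
    have h3 : 0 < Real.log 2 := Real.log_pos (by norm_num)
    calc Real.exp 1 * Real.log 2 ≤ 2.7182818286 * 0.6931471808 := by
          apply mul_le_mul h1.le h2.le h3.le (by norm_num)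
      _ < 2 := by norm_num
  obtain ⟨C, hC, h⟩ := power_form hfin 2 hB
  set D : ℝ := max C 3 with hD
  have hD3 : 3 ≤ D := le_max_right _ _
  have hDC : C ≤ D := le_max_left _ _
  have hD0 : 0 < D := by linarith
  have hlD : 0 < Real.log D := Real.log_pos (by linarith)
  have hl3 : 0 < Real.log 3 := Real.log_pos (by norm_num)
  set β : ℝ := min (1 / 6) (Real.log 3 / Real.log D) with hβ
  have hβ0 : 0 < β := lt_min (by norm_num) (div_pos hl3 hlD)
  have hβ6 : β ≤ 1 / 6 := min_le_left _ _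
  have hβD : β ≤ Real.log 3 / Real.log D := min_le_right _ _
  refine ⟨β, hβ0, h.mono ?_⟩
  intro n hn m hm hmn
  obtain ⟨k, rfl⟩ : ∃ k, n = m + k := ⟨n - m, by omega⟩
  have hk1 : 1 ≤ k := by omega
  have h2 := hn k hk1 (by omega)
  rw [Nat.add_sub_cancel] at h2
  have hkr : (1 : ℝ) ≤ k := by exact_mod_cast hk1
  have hkr0 : (0 : ℝ) < k := by linarith
  have hDβ : D ^ β ≤ 3 := by
    rw [Real.rpow_def_of_pos hD0]
    rw [le_div_iff₀ hlD] at hβD
    calc Real.exp (Real.log D * β) ≤ Real.exp (Real.log 3) := by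
          apply Real.exp_le_exp.2
          linarith [mul_comm (Real.log D) β]
      _ = 3 := Real.exp_log (by norm_num)
  have hkβ : (k : ℝ) ^ (2 * β) ≤ ((k : ℝ) + 2) / 3 := by
    have h4 : (k : ℝ) ^ (2 * β) ≤ (k : ℝ) ^ (1 / 3 : ℝ) :=
      Real.rpow_le_rpow_of_exponent_le hkr (by linarith)
    have h5 := rpow_one_add_le_one_add_mul_self (s := (k : ℝ) - 1) (by linarith)
      (p := (1 / 3 : ℝ)) (by norm_num) (by norm_num)
    have h6 : (1 : ℝ) + ((k : ℝ) - 1) = k := by ring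
    rw [h6] at h5
    linarith
  have h7 : (m.divisors.card : ℝ) ^ β ≤ (k : ℝ) + 2 := by
    have h8 : (m.divisors.card : ℝ) ≤ D * (k : ℝ) ^ (2 : ℝ) :=
      h2.trans (mul_le_mul_of_nonneg_right hDC (Real.rpow_nonneg hkr0.le _))
    calc (m.divisors.card : ℝ) ^ β ≤ (D * (k : ℝ) ^ (2 : ℝ)) ^ β :=
          Real.rpow_le_rpow (by positivity) h8 hβ0.le
      _ = D ^ β * (k : ℝ) ^ (2 * β) := by
          rw [Real.mul_rpow hD0.le (Real.rpow_nonneg hkr0.le _), ← Real.rpow_mul hkr0.le]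
      _ ≤ 3 * (((k : ℝ) + 2) / 3) := by
          apply mul_le_mul hDβ hkβ (Real.rpow_nonneg hkr0.le _) (by norm_num)
      _ = (k : ℝ) + 2 := by ring
  push_cast
  linarith

end Pool.Agent.Helper6_TBP
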