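import Pool.Agent.TBP.StmtsC

set_option autoImplicit false

namespace Pool.Agent.Helper6_TBP

open Finset Pool.Agent.TBP

/-- The case `B = 1`, the inequality `m + τ(m) ≤ n`: for every `η > (1 + log log 2) / log 2 =
0.9139..` there is `C` such that for infinitely many `n`, for every `K ≥ 1`, at most `C K ^ η` of
the integers `1 ≤ m < n` with `n ≤ m + K` satisfy `m + τ(m) > n`. -/
theorem unit_exponent (h : Fm2Stmt) : ∀ η : ℝ, (1 + Real.log (Real.log 2)) / Real.log 2 < η →
    ∃ C : ℝ, 0 < C ∧ {n : ℕ | ∀ K : ℕ, 1 ≤ K →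
      (((Ico 1 n).filter (fun m : ℕ => n ≤ m + K ∧ n < m + m.divisors.card)).card : ℝ)
        ≤ C * (K : ℝ) ^ η}.Infinite := by
  intro η hη
  have hl0 : 0 < Real.log 2 := Real.log_pos (by norm_num)
  have hl1 : Real.log 2 < 1 := by
    have := Real.log_two_lt_d9
    linarith
  have he : (1 : ℝ) ≤ Real.exp 1 * Real.log 2 := by
    have h1 := Real.exp_one_gt_d9
    have h2 := Real.log_two_gt_d9
    nlinarith
  have hη2 : 1 - ((1 / Real.log 2) * Real.log (1 / Real.log 2) - 1 / Real.log 2 + 1) < η := by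
    have e1 : Real.log (1 / Real.log 2) = - Real.log (Real.log 2) := by
      rw [one_div, Real.log_inv]
    have e2 : 1 - ((1 / Real.log 2) * Real.log (1 / Real.log 2) - 1 / Real.log 2 + 1)
        = (1 + Real.log (Real.log 2)) / Real.log 2 := by
      rw [e1]; ring
    rw [e2]; exact hη
  obtain ⟨C, hC, hinf⟩ := h 1 η hl1 he hη2
  refine ⟨C, hC, hinf.mono ?_⟩
  intro n hn K hK
  refine le_trans ?_ (hn K hK)
  have hcard : ((Ico 1 n).filter (fun m : ℕ => n ≤ m + K ∧ n < m + m.divisors.card)).card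
      ≤ ((Icc 1 K).filter
        (fun k : ℕ => k < n ∧ (k : ℝ) ^ (1 : ℝ) < ((n - k).divisors.card : ℝ))).card := by
    apply Finset.card_le_card_of_injOn (fun m => n - m)
    · intro m hm
      rw [Finset.mem_coe, Finset.mem_filter, Finset.mem_Ico] at hm
      obtain ⟨⟨h1, h2⟩, h3, h4⟩ := hm
      rw [Finset.mem_coe, Finset.mem_filter, Finset.mem_Icc]
      show (1 ≤ n - m ∧ n - m ≤ K) ∧ n - m < n ∧
        ((n - m : ℕ) : ℝ) ^ (1 : ℝ) < ((n - (n - m)).divisors.card : ℝ)
      refine ⟨⟨by omega, by omega⟩, by omega, ?_⟩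
      rw [Real.rpow_one]
      have h5 : n - (n - m) = m := by omega
      rw [h5]
      exact_mod_cast (by omega : n - m < m.divisors.card)
    · intro m hm m' hm' hmm
      rw [Finset.mem_coe, Finset.mem_filter, Finset.mem_Ico] at hm hm'
      simp only at hmm
      omega
  exact_mod_cast hcard

end Pool.Agent.Helper6_TBP
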