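import Pool.Agent.Helper6_TBP.Extra
import Pool.Agent.Helper10_TBP.CVX
import Pool.Agent.Helper49_TBP.GSM
import Pool.Agent.Helper92_TBP.DIV
import Pool.Agent.Helper82_TBP.EUL
import Pool.Agent.Helper64_TBP.LOC
import Pool.Agent.Helper5_TBP.MER
import Pool.Agent.Helper31_TBP.PBM
import Pool.Agent.Helper91_TBP.VDB
import Pool.Agent.Helper95_TBP.EPA
import Pool.Agent.Helper86_TBP.EPB
import Pool.Agent.Helper90_TBP.BHA
import Pool.Agent.Helper62_TBP.CNT
import Pool.Agent.Helper26_TBP.PAR
import Pool.Agent.Helper86_TBP.SVE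
import Pool.Agent.Helper16_TBP.VLB
import Pool.Agent.Helper97_TBP.SIZ
import Pool.Agent.Helper67_TBP.STA
import Pool.Agent.Helper41_TBP.STB
import Pool.Agent.Helper34_TBP.STC
import Pool.Agent.Helper94_TBP.MOM
import Pool.Agent.Helper60_TBP.CHO
import Pool.Agent.Helper76_TBP.SER
import Pool.Agent.Helper81_TBP.UNI
import Pool.Agent.Helper80_TBP.FIN
import Pool.Agent.Helper45_TBP.BET

set_option autoImplicit false

/-!
Squad TBP (MP_ba39b0_nt): assembly of all rows.
-/

namespace Pool.Agent.Helper6_TBP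

open Pool.Agent.TBP

theorem pbm_all : PbmStmt := H31.pbm H5.mer

theorem epb_all : EpbStmt := H86.epb H82.eul H64.loc (H95.epa H5.mer) H91.vdb

theorem sve_all : SveStmt := H86.sve H90.bha H62.cnt H26.par pbm_all

theorem siz_all : SizStmt := H97.siz (H16.vlb pbm_all)

theorem mom_all : MomStmt :=
  H94.mom sve_all H91.vdb siz_all H41.stb H34.stc (H92.div H10.cvx H49.gsm) epb_all H49.gsm

theorem uni_all : UniStmt := H81.uni mom_all H60.cho H76.ser H67.sta

theorem fin_all : FinStmt := H80.fin uni_all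

theorem bet_all : BetStmt := H45.bet fin_all

end Pool.Agent.Helper6_TBP
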