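import Pool.Agent.TBP.StmtsC

/-!
Squad TBP, row UN2: the weighted union bound.
-/

set_option autoImplicit false

namespace Pool.Agent.TBP.H6C

open Finset
open Pool.Agent.Common_Sieve Pool.Agent.Helper46_MNO

theorem un2 (hM : Mo2Stmt) (hCHO : ChoStmt) (hSER : SerStmt) (hSTA : StaStmt) : Un2Stmt := by
  classical
  intro B η hB1 hB2 hη
  obtain ⟨L, hLd⟩ : ∃ L : ℝ, L = Real.log 2 := ⟨_, rfl⟩
  have hL : 0 < L := by rw [hLd]; exact Real.log_pos (by norm_num)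
  rw [← hLd] at hB1 hB2 hη
  obtain ⟨x, hx⟩ : ∃ x : ℝ, x = B / L := ⟨_, rfl⟩
  rw [← hx] at hη
  have hBx : B = x * L := by rw [hx]; field_simp
  have hx1 : 1 < x := by rw [hx, lt_div_iff₀ hL]; linarith
  have hxe : x ≤ Real.exp 1 := by rw [hx, div_le_iff₀ hL]; exact hB2
  have hx0 : 0 < x := by linarith
  have hx3 : x ≤ 3 := by
    have := Real.exp_one_lt_d9
    linarith
  obtain ⟨r, hr⟩ : ∃ r : ℝ, r = Real.log x / L := ⟨_, rfl⟩
  have hlx0 : 0 < Real.log x := Real.log_pos hx1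
  have hlx1 : Real.log x ≤ 1 := by
    rw [Real.log_le_iff_le_exp hx0]; exact hxe
  have hr0 : 0 < r := by rw [hr]; exact div_pos hlx0 hL
  have hrρ : r ≤ rho := by
    have : rho = 1 / L := by rw [hLd]; rfl
    rw [this, hr]
    exact div_le_div_of_nonneg_right hlx1 hL.le
  have hr2 : r ≤ 2 := by
    refine hrρ.trans ?_
    unfold rho
    rw [div_le_iff₀ (Real.log_pos (by norm_num))]
    have := Real.log_two_gt_d9
    linarith
  have h2r : (2 : ℝ) ^ r = x := by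
    rw [Real.rpow_def_of_pos (by norm_num), ← hLd, hr]
    have : L * (Real.log x / L) = Real.log x := by field_simp
    rw [this, Real.exp_log hx0]
  have hBr : B * r = x * Real.log x := by
    rw [hBx, hr]; field_simp
  obtain ⟨ε, hε⟩ : ∃ ε : ℝ, ε = (η - (1 - (x * Real.log x - x + 1))) / 4 := ⟨_, rfl⟩
  have hε0 : 0 < ε := by rw [hε]; linarith
  obtain ⟨s, hs⟩ : ∃ s : ℝ, s = 1 - (x * Real.log x - x + 1) + 3 * ε := ⟨_, rfl⟩
  have hxl : x * Real.log x ≤ x := by nlinarith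
  have hs0 : 0 ≤ s := by rw [hs]; linarith
  have hsη : s ≤ η := by rw [hs]; linarith
  obtain ⟨θ, hθ⟩ : ∃ θ : ℝ, θ = (x - 1) / (x - 1 + ε) := ⟨_, rfl⟩
  have hxm : 0 < x - 1 := by linarith
  have hθ0 : 0 < θ := by rw [hθ]; exact div_pos hxm (by linarith)
  have hθ1 : θ < 1 := by
    rw [hθ, div_lt_one (by linarith)]
    linarith
  have hθi : (1 / θ) * (x - 1) = x - 1 + ε := by
    rw [hθ, one_div_div]; field_simp
  obtain ⟨a, J0, C, ha, hC, hMJ⟩ := hM r θ hr0 hrρ hθ0 hθ1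
  obtain ⟨C', hC', hS⟩ := hSER (2 * ε) (by positivity)
  obtain ⟨D, hD⟩ : ∃ D : ℝ, D = 16 * C * C' + 1 := ⟨_, rfl⟩
  have hD0 : 0 < D := by
    rw [hD]
    have : 0 < 16 * C * C' := by positivity
    linarith
  refine ⟨a, J0, D, ha, hD0, ?_⟩
  intro J hJ
  obtain ⟨h1, h2, hpos, hcard, hmom⟩ := hMJ J hJ
  refine ⟨h1, h2, ?_⟩
  obtain ⟨TV, hTV⟩ : ∃ TV : ℝ, TV = (TT a J : ℝ) * VV θ J := ⟨_, rfl⟩
  rw [← hTV] at hpos hcard hmom
  rw [h2r] at hmom
  -- the weight of `t`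
  obtain ⟨w, hw⟩ : ∃ w : ℕ → ℝ, w = fun t => ∑ k ∈ (Icc 1 (lw J 0)).filter
      (fun k : ℕ => (k : ℝ) ^ B < ((lf J (-1) k t).divisors.card : ℝ)), (k : ℝ) ^ (-s) := ⟨_, rfl⟩
  -- the bound for one `k`
  have hkey : ∀ k ∈ Icc 1 (lw J 0), ((k.divisors.card : ℝ) / (k : ℝ) ^ B) ^ r * (k : ℝ) ^ (-s) *
      ∑ t ∈ SS θ J (-1) (TT a J), tk r (lf J (-1) k t / Nat.gcd (WW J) k) ≤
      (4 * C * TV) * ((k.divisors.card : ℝ) ^ 6 * (k : ℝ) ^ (-(1 + 2 * ε))) := by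
    intro k hk
    rw [mem_Icc] at hk
    have hk0 : (0 : ℝ) < k := by exact_mod_cast hk.1
    have hτ1 : (1 : ℝ) ≤ (k.divisors.card : ℝ) := by
      have : 0 < k.divisors.card := Finset.card_pos.mpr ⟨1, Nat.one_mem_divisors.mpr (by omega)⟩
      exact_mod_cast this
    obtain ⟨τ, hτ⟩ : ∃ τ : ℝ, τ = (k.divisors.card : ℝ) := ⟨_, rfl⟩
    rw [← hτ] at hτ1
    have hτ0 : 0 < τ := by linarith
    obtain ⟨j, hj1, hj2, hj3⟩ := hCHO θ J k hθ0 hk.1
    have hm := hmom k j hk.1 hk.2 hj1 hj2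
    rw [← hτ] at hm ⊢
    have e1 : ((2 : ℝ) ^ j) ^ (x - 1) ≤ 4 * (k : ℝ) ^ (x - 1 + ε) := by
      calc ((2 : ℝ) ^ j) ^ (x - 1) ≤ (2 * (k : ℝ) ^ (1 / θ)) ^ (x - 1) :=
            Real.rpow_le_rpow (by positivity) hj3 (by linarith)
        _ = 2 ^ (x - 1) * (k : ℝ) ^ (x - 1 + ε) := by
            rw [Real.mul_rpow (by norm_num) (by positivity), ← Real.rpow_mul hk0.le, hθi]
        _ ≤ 4 * (k : ℝ) ^ (x - 1 + ε) := by
            apply mul_le_mul_of_nonneg_right _ (by positivity)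
            calc (2 : ℝ) ^ (x - 1) ≤ 2 ^ (2 : ℝ) :=
                  Real.rpow_le_rpow_of_exponent_le (by norm_num) (by linarith)
              _ = 4 := by norm_num
    have e2 : (τ / (k : ℝ) ^ B) ^ r ≤ τ ^ 2 / (k : ℝ) ^ (B * r) := by
      rw [Real.div_rpow hτ0.le (by positivity), ← Real.rpow_mul hk0.le]
      apply div_le_div_of_nonneg_right _ (by positivity)
      calc τ ^ r ≤ τ ^ (2 : ℝ) := Real.rpow_le_rpow_of_exponent_le hτ1 hr2
        _ = τ ^ 2 := by norm_num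
    have e3 : ∑ t ∈ SS θ J (-1) (TT a J), tk r (lf J (-1) k t / Nat.gcd (WW J) k) ≤
        C * TV * (4 * (k : ℝ) ^ (x - 1 + ε)) * τ ^ 4 := by
      refine le_trans hm ?_
      apply mul_le_mul_of_nonneg_right _ (by positivity)
      exact mul_le_mul_of_nonneg_left e1 (by positivity)
    have e4 : (k : ℝ) ^ (x - 1 + ε) / (k : ℝ) ^ (B * r) * (k : ℝ) ^ (-s) =
        (k : ℝ) ^ (-(1 + 2 * ε)) := by
      rw [← Real.rpow_sub hk0, ← Real.rpow_add hk0]
      congr 1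
      rw [hBr, hs]
      ring
    calc (τ / (k : ℝ) ^ B) ^ r * (k : ℝ) ^ (-s) *
        ∑ t ∈ SS θ J (-1) (TT a J), tk r (lf J (-1) k t / Nat.gcd (WW J) k) ≤
        (τ ^ 2 / (k : ℝ) ^ (B * r)) * (k : ℝ) ^ (-s) *
          (C * TV * (4 * (k : ℝ) ^ (x - 1 + ε)) * τ ^ 4) := by
          apply mul_le_mul (mul_le_mul_of_nonneg_right e2 (by positivity)) e3 _ (by positivity)
          exact Finset.sum_nonneg fun t _ => tk_nonneg _ _
      _ = (4 * C * TV) * (τ ^ 6 * ((k : ℝ) ^ (x - 1 + ε) / (k : ℝ) ^ (B * r) * (k : ℝ) ^ (-s))) := by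
          have h5 : (k : ℝ) ^ (B * r) ≠ 0 := (Real.rpow_pos_of_pos hk0 _).ne'
          field_simp
      _ = (4 * C * TV) * (τ ^ 6 * (k : ℝ) ^ (-(1 + 2 * ε))) := by rw [e4]
  -- the sum of the weights
  have hwsum : ∑ t ∈ SS θ J (-1) (TT a J), w t ≤ (4 * C * TV) * C' := by
    have hw1 : ∀ t ∈ SS θ J (-1) (TT a J), w t ≤ ∑ k ∈ Icc 1 (lw J 0),
        ((k.divisors.card : ℝ) / (k : ℝ) ^ B) ^ r * (k : ℝ) ^ (-s) *
          tk r (lf J (-1) k t / Nat.gcd (WW J) k) := by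
      intro t ht
      rw [hw]
      refine le_trans (Finset.sum_le_sum (g := fun k : ℕ =>
        ((k.divisors.card : ℝ) / (k : ℝ) ^ B) ^ r * (k : ℝ) ^ (-s) *
          tk r (lf J (-1) k t / Nat.gcd (WW J) k)) ?_)
        (Finset.sum_le_sum_of_subset_of_nonneg (filter_subset _ _) fun k hk _ =>
          mul_nonneg (mul_nonneg (Real.rpow_nonneg (div_nonneg (Nat.cast_nonneg _)
            (Real.rpow_nonneg (Nat.cast_nonneg _) _)) _) (Real.rpow_nonneg (Nat.cast_nonneg _) _))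
            (tk_nonneg _ _))
      intro k hk
      obtain ⟨hk, hlt⟩ := mem_filter.mp hk
      have hk' := mem_Icc.mp hk
      have hk0 : (0 : ℝ) < k := by exact_mod_cast hk'.1
      have hst := (hSTA J k t (-1) hk'.1).2
      have hst' : ((lf J (-1) k t).divisors.card : ℝ) ≤
          (k.divisors.card : ℝ) * ((lf J (-1) k t / Nat.gcd (WW J) k).divisors.card : ℝ) := by
        exact_mod_cast hst
      have hden : 0 < (k : ℝ) ^ B := by positivity
      have e1 : 1 ≤ (k.divisors.card : ℝ) / (k : ℝ) ^ B *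
          ((lf J (-1) k t / Nat.gcd (WW J) k).divisors.card : ℝ) := by
        rw [div_mul_eq_mul_div, le_div_iff₀ hden, one_mul]
        linarith
      have e2 : 1 ≤ ((k.divisors.card : ℝ) / (k : ℝ) ^ B) ^ r *
          tk r (lf J (-1) k t / Nat.gcd (WW J) k) := by
        unfold tk
        rw [← Real.mul_rpow (div_nonneg (Nat.cast_nonneg _) hden.le) (Nat.cast_nonneg _)]
        exact Real.one_le_rpow e1 hr0.le
      have e3 : (0 : ℝ) ≤ (k : ℝ) ^ (-s) := by positivity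
      calc (k : ℝ) ^ (-s) = 1 * (k : ℝ) ^ (-s) := (one_mul _).symm
        _ ≤ (((k.divisors.card : ℝ) / (k : ℝ) ^ B) ^ r *
          tk r (lf J (-1) k t / Nat.gcd (WW J) k)) * (k : ℝ) ^ (-s) :=
            mul_le_mul_of_nonneg_right e2 e3
        _ = _ := by ring
    calc ∑ t ∈ SS θ J (-1) (TT a J), w t ≤ ∑ t ∈ SS θ J (-1) (TT a J), ∑ k ∈ Icc 1 (lw J 0),
        ((k.divisors.card : ℝ) / (k : ℝ) ^ B) ^ r * (k : ℝ) ^ (-s) *
          tk r (lf J (-1) k t / Nat.gcd (WW J) k) := Finset.sum_le_sum hw1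
      _ = ∑ k ∈ Icc 1 (lw J 0), ((k.divisors.card : ℝ) / (k : ℝ) ^ B) ^ r * (k : ℝ) ^ (-s) *
          ∑ t ∈ SS θ J (-1) (TT a J), tk r (lf J (-1) k t / Nat.gcd (WW J) k) := by
          rw [Finset.sum_comm]
          refine Finset.sum_congr rfl fun k _ => ?_
          rw [Finset.mul_sum]
      _ ≤ ∑ k ∈ Icc 1 (lw J 0),
          (4 * C * TV) * ((k.divisors.card : ℝ) ^ 6 * (k : ℝ) ^ (-(1 + 2 * ε))) :=
          Finset.sum_le_sum hkey
      _ = (4 * C * TV) * ∑ k ∈ Icc 1 (lw J 0),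
          (k.divisors.card : ℝ) ^ 6 * (k : ℝ) ^ (-(1 + 2 * ε)) := by rw [Finset.mul_sum]
      _ ≤ (4 * C * TV) * C' :=
          mul_le_mul_of_nonneg_left (hS _) (by positivity)
  -- a good `t`
  obtain ⟨t, ht, htw⟩ : ∃ t ∈ SS θ J (-1) (TT a J), w t ≤ D := by
    by_contra hcon
    push Not at hcon
    have h3 : (SS θ J (-1) (TT a J)).card • D ≤ ∑ t ∈ SS θ J (-1) (TT a J), w t :=
      Finset.card_nsmul_le_sum _ _ _ fun t ht => (hcon t ht).le
    rw [nsmul_eq_mul] at h3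
    have h4 : TV / 4 * D ≤ (4 * C * TV) * C' :=
      (mul_le_mul_of_nonneg_right hcard hD0.le).trans (h3.trans hwsum)
    rw [hD] at h4
    nlinarith
  have ht1 : t ∈ Icc 1 (TT a J) := by
    unfold SS at ht
    exact (mem_filter.mp ht).1
  rw [mem_Icc] at ht1
  refine ⟨t, ht1.1, ht1.2, ?_⟩
  intro K hK1 hK
  have hKp : (0 : ℝ) < K := by exact_mod_cast hK1
  have hK1' : (1 : ℝ) ≤ K := by exact_mod_cast hK1
  have hterm : ∀ k ∈ (Icc 1 K).filter
      (fun k : ℕ => (k : ℝ) ^ B < ((lf J (-1) k t).divisors.card : ℝ)),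
      (1 : ℝ) ≤ (K : ℝ) ^ s * (k : ℝ) ^ (-s) := by
    intro k hk
    have hk' := mem_Icc.mp (mem_filter.mp hk).1
    have hk0 : (0 : ℝ) < k := by exact_mod_cast hk'.1
    have hkK : (k : ℝ) ≤ K := by exact_mod_cast hk'.2
    rw [Real.rpow_neg hk0.le, ← div_eq_mul_inv, le_div_iff₀ (by positivity), one_mul]
    exact Real.rpow_le_rpow hk0.le hkK hs0
  calc (((Icc 1 K).filter
        (fun k : ℕ => (k : ℝ) ^ B < ((lf J (-1) k t).divisors.card : ℝ))).card : ℝ)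
      = ∑ k ∈ (Icc 1 K).filter
        (fun k : ℕ => (k : ℝ) ^ B < ((lf J (-1) k t).divisors.card : ℝ)), (1 : ℝ) := by
        rw [Finset.sum_const, nsmul_eq_mul, mul_one]
    _ ≤ ∑ k ∈ (Icc 1 K).filter
        (fun k : ℕ => (k : ℝ) ^ B < ((lf J (-1) k t).divisors.card : ℝ)),
          (K : ℝ) ^ s * (k : ℝ) ^ (-s) := Finset.sum_le_sum hterm
    _ ≤ ∑ k ∈ (Icc 1 (lw J 0)).filter
        (fun k : ℕ => (k : ℝ) ^ B < ((lf J (-1) k t).divisors.card : ℝ)),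
          (K : ℝ) ^ s * (k : ℝ) ^ (-s) := by
        refine Finset.sum_le_sum_of_subset_of_nonneg ?_ fun k _ _ => by positivity
        exact filter_subset_filter _ (Icc_subset_Icc_right hK)
    _ = (K : ℝ) ^ s * w t := by rw [hw, Finset.mul_sum]
    _ ≤ (K : ℝ) ^ η * D := by
        apply mul_le_mul (Real.rpow_le_rpow_of_exponent_le hK1' hsη) htw _ (by positivity)
        rw [hw]
        exact Finset.sum_nonneg fun k _ => by positivity
    _ = D * (K : ℝ) ^ η := mul_comm _ _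

end Pool.Agent.TBP.H6C
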