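import Pool.Agent.Helper6_TBP.Main
import Pool.Agent.Helper6_TBP.ExtraC
import Pool.Agent.Helper27_TBP.CX2
import Pool.Agent.Helper91_TBP.GS2
import Pool.Agent.Helper10_TBP.DI2
import Pool.Agent.Helper38_TBP.LO2
import Pool.Agent.Helper43_TBP.EA2
import Pool.Agent.Helper51_TBP.EB2
import Pool.Agent.Helper92_TBP.MO2
import Pool.Agent.Helper6_TBP.UN2
import Pool.Agent.Helper26_TBP.FM2

set_option autoImplicit false

/-!
Squad TBP (MP_ba39b0_nt), block C: assembly.
-/

namespace Pool.Agent.Helper6_TBP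

open Pool.Agent.TBP

theorem eb2_all : Eb2Stmt := H51.eb2 H82.eul H38.lo2 (H43.ea2 H5.mer) H91.vdb

theorem mo2_all : Mo2Stmt :=
  H92.mo2 sve_all H91.vdb siz_all H41.stb H34.stc (H10.di2 H27.cx2 H91.gs2) eb2_all H91.gs2

theorem un2_all : Un2Stmt := H6C.un2 mo2_all H60.cho H76.ser H67.sta

theorem fm2_all : Fm2Stmt := H26.fm2 un2_all

end Pool.Agent.Helper6_TBP
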